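import Pool.Agent.Lib.MP_6396c4_an.Final

/-!
For every `k ≥ 3`, the sequences `m = m(N)` for which the `L^{2k}` and the `L^2` norm of
`F_{N,m}(s) = ∑_{n ≤ N, Ω(n) = m} n^{-s}` are comparable.
-/

set_option autoImplicit false

namespace Pool.Agent.Results.MP_6396c4_an.ComparableIff

open MeasureTheory

/-- The infinite torus `𝕋^∞`: a point `θ_p` of `ℝ/ℤ` for every prime `p`. -/
abbrev Torus : Type := Nat.Primes → AddCircle (1 : ℝ)

/-- `m_∞`: the product of the normalised Haar (Lebesgue) measures of the circles. -/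
noncomputable def torusMeasure : Measure Torus :=
  Measure.infinitePi fun _ => AddCircle.haarAddCircle

/-- The coordinate `z_p = e^{2πi θ_p}`, which stands for `p^{-s}`. -/
noncomputable def coord (θ : Torus) (p : Nat.Primes) : ℂ := (AddCircle.toCircle (θ p) : ℂ)

/-- The monomial `∏_p z_p^{v_p(n)}`, which stands for `n^{-s}`. -/
noncomputable def monomial (n : ℕ) (θ : Torus) : ℂ :=
  ∏ᶠ p : Nat.Primes, coord θ p ^ (n.factorization p)

/-- The polynomial of `F_{N,m}(s) = ∑_{n ≤ N, Ω(n) = m} n^{-s}`. -/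
noncomputable def F (N m : ℕ) (θ : Torus) : ℂ :=
  ∑ n ∈ (Finset.Icc 1 N).filter (fun n => ArithmeticFunction.cardFactors n = m), monomial n θ

/-- `‖f‖_q = (∫_{𝕋^∞} |f|^q dm_∞)^{1/q}`. -/
noncomputable def norm (q : ℝ) (f : Torus → ℂ) : ℝ :=
  (∫ θ, ‖f θ‖ ^ q ∂torusMeasure) ^ (1 / q)

/-- The sequence `m = m(N)` is `k`-comparable. -/
def Comparable (k : ℕ) (m : ℕ → ℕ) : Prop :=
  ∃ C : ℝ, ∀ N : ℕ, 2 ≤ N → F N (m N) ≠ 0 →
    norm (2 * k) (F N (m N)) ≤ C * norm 2 (F N (m N))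

/-- The condition on the pair `(N, m)` with constant `C`; here `log log N` occurs as
`Real.log (Real.log N)`. -/
def Cond (k : ℕ) (C : ℝ) (N m : ℕ) : Prop :=
  (N : ℝ) ≤ C * 2 ^ m ∨
  (k = 3 ∧ (m : ℝ) ≤ (1 / 3 - 1 / C) * Real.log (Real.log N)) ∨
  (4 ≤ k ∧ (k : ℝ) * m ≤ Real.log (Real.log N) + √(Real.log (Real.log N) / 2 *
    (((k : ℝ) - 3) * Real.log (Real.log (Real.log N)) +
      ((k : ℝ) - 1) * Real.log (Real.log (Real.log (Real.log N))) + C)))

/-- Characterisation of the `k`-comparable sequences, `k ≥ 3`. -/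
theorem result (k : ℕ) (hk : 3 ≤ k) (m : ℕ → ℕ) (hm : ∀ N, 1 ≤ m N) :
    Comparable k m ↔
      ∃ C : ℝ, 0 < C ∧ ∀ N : ℕ, 2 ≤ N → 2 ^ (m N) ≤ N → Cond k C N (m N) :=
  Pool.Agent.MP6396c4.main k hk m hm

end Pool.Agent.Results.MP_6396c4_an.ComparableIff
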